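import Pool.Agent.FUR.Stmts

/-!
# Row AVG
-/

set_option autoImplicit false

open Finset

namespace Pool.Agent.FUR.H21

open Pool.Agent.FUR

theorem choose_aux (m q : ℕ) : (m : ℝ) * ((m - 1).choose q : ℝ) = ((m : ℝ) - q) * (m.choose q : ℝ) := by
  rcases m with _ | m
  · rcases q with _ | q
    · simp
    · simp
  · rcases le_or_gt q (m + 1) with h | h
    · have h1 := Nat.choose_mul_succ_eq m q
      have h2 : ((m.choose q * (m + 1) : ℕ) : ℝ) = (((m + 1).choose q * (m + 1 - q) : ℕ) : ℝ) := by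
        rw [h1]
      rw [Nat.cast_mul, Nat.cast_mul, Nat.cast_sub h] at h2
      rw [Nat.add_sub_cancel]
      linarith
    · have h1 : (m + 1).choose q = 0 := Nat.choose_eq_zero_of_lt h
      have h2 : m.choose q = 0 := Nat.choose_eq_zero_of_lt (by omega)
      rw [Nat.add_sub_cancel, h1, h2]
      simp

theorem sum_erase {N : ℕ} (A S : Finset (Fin N)) (hS : S ⊆ A) (q : ℕ) :
    ∑ v ∈ A, (((S.erase v).card).choose q : ℝ) = ((A.card : ℝ) - q) * (S.card.choose q : ℝ) := by
  rw [← Finset.sum_sdiff hS]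
  have h1 : ∑ v ∈ A \ S, (((S.erase v).card).choose q : ℝ) =
      ((A.card : ℝ) - S.card) * (S.card.choose q : ℝ) := by
    have h : ∀ v ∈ A \ S, (((S.erase v).card).choose q : ℝ) = (S.card.choose q : ℝ) := by
      intro v hv
      rw [Finset.erase_eq_of_notMem (Finset.mem_sdiff.1 hv).2]
    rw [Finset.sum_congr rfl h, Finset.sum_const, nsmul_eq_mul, Finset.card_sdiff_of_subset hS,
      Nat.cast_sub (Finset.card_le_card hS)]
  have h2 : ∑ v ∈ S, (((S.erase v).card).choose q : ℝ) =
      (S.card : ℝ) * ((S.card - 1).choose q : ℝ) := by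
    have h : ∀ v ∈ S, (((S.erase v).card).choose q : ℝ) = ((S.card - 1).choose q : ℝ) := by
      intro v hv
      rw [Finset.card_erase_of_mem hv]
    rw [Finset.sum_congr rfl h, Finset.sum_const, nsmul_eq_mul]
  rw [h1, h2, choose_aux]
  ring

theorem avg (hRSM : RSMStmt) : AVGStmt := by
  intro N q f A hA
  have hS : ∀ x, Sn f x ⊆ A := by
    intro x v hv
    exact hA v ⟨x, (Finset.mem_filter.1 hv).2⟩
  have h1 : ∀ v ∈ A, ((Mq q (rst f v false) : ℝ) + Mq q (rst f v true)) =
      2 * ∑ x : Fin N → Bool, ((((Sn f x).erase v).card).choose q : ℝ) := by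
    intro v _
    have h := hRSM N q f v
    have h' : ((Mq q (rst f v false) + Mq q (rst f v true) : ℕ) : ℝ) =
      ((2 * ∑ x : Fin N → Bool, (((Sn f x).erase v).card).choose q : ℕ) : ℝ) := by rw [h]
    push_cast at h'
    exact h'
  rw [Finset.sum_congr rfl h1, ← Finset.mul_sum, Finset.sum_comm]
  have h2 : ∀ x ∈ (Finset.univ : Finset (Fin N → Bool)),
      ∑ v ∈ A, ((((Sn f x).erase v).card).choose q : ℝ) =
        ((A.card : ℝ) - q) * ((Sn f x).card.choose q : ℝ) := fun x _ => sum_erase A _ (hS x) q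
  rw [Finset.sum_congr rfl h2, ← Finset.mul_sum]
  unfold Mq
  push_cast
  ring

end Pool.Agent.FUR.H21
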