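import Pool.Agent.FUR.Stmts

/-!
# Row MAT
-/

set_option autoImplicit false

open Finset

namespace Pool.Agent.FUR.H21

open Pool.Agent.FUR

theorem full_lt {n : ℕ} (x : Fin n → Bool) (b : Bool) (v : ℕ) (h : v < n) :
    full x b v = asg x false v := by
  unfold full asg
  rw [if_pos h.le, dif_pos h, dif_pos h]

theorem full_eq {n : ℕ} (x : Fin n → Bool) (b : Bool) : full x b n = b := by
  unfold full asg
  rw [if_pos le_rfl, dif_neg (lt_irrefl n), if_pos rfl]

theorem full_gt {n : ℕ} (x : Fin n → Bool) (b : Bool) (i : ℕ) :
    full x b (n + 1 + i) = px (asg x false) (i + 1) := by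
  unfold full
  rw [if_neg (by omega), show n + 1 + i - n = i + 1 by omega]

theorem litF_eval (l : ℕ × Bool) (σ : ℕ → Bool) : (litF l).eval σ = (σ l.1 == l.2) := by
  obtain ⟨v, b⟩ := l
  cases b <;> simp [litF, PF.eval]

theorem mat : MATStmt := by
  intro n hn x c hc
  have h0 : full x (!(par x)) (n + 1) = asg x false 0 := by
    have h := full_gt x (!(par x)) 0
    rw [Nat.add_zero] at h
    rw [h]
    simp [px]
  have h1 : full x (!(par x)) 0 = asg x false 0 := full_lt x _ 0 hn
  have h2 : full x (!(par x)) (2 * n) = par x := by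
    have h := full_gt x (!(par x)) (n - 1)
    rw [show n + 1 + (n - 1) = 2 * n by omega, show n - 1 + 1 = n by omega] at h
    exact h
  have h3 := full_eq x (!(par x))
  simp only [QPar, List.mem_append, List.mem_cons, List.not_mem_nil, or_false,
    List.mem_flatMap, List.mem_range] at hc
  rcases hc with (hc | hc) | hc
  · rcases hc with rfl | rfl
    · simp only [clF, PF.eval, litF_eval, h0, h1]
      cases asg x false 0 <;> rfl
    · simp only [clF, PF.eval, litF_eval, h0, h1]
      cases asg x false 0 <;> rfl
  · obtain ⟨i, hi, hc⟩ := hc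
    have h4 : full x (!(par x)) (n + 1 + (i + 1)) =
        xor (px (asg x false) (i + 1)) (asg x false (i + 1)) := full_gt x _ (i + 1)
    have h5 : full x (!(par x)) (n + 1 + i) = px (asg x false) (i + 1) := full_gt x _ i
    have h6 : full x (!(par x)) (i + 1) = asg x false (i + 1) := full_lt x _ (i + 1) (by omega)
    simp only [xorC, List.mem_cons, List.not_mem_nil, or_false] at hc
    rcases hc with rfl | rfl | rfl | rfl <;>
    · simp only [clF, PF.eval, litF_eval, h4, h5, h6]
      cases px (asg x false) (i + 1) <;> cases asg x false (i + 1) <;> rfl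
  · rcases hc with rfl | rfl
    · simp only [clF, PF.eval, litF_eval, h2, h3]
      cases par x <;> rfl
    · simp only [clF, PF.eval, litF_eval, h2, h3]
      cases par x <;> rfl

end Pool.Agent.FUR.H21
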